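import Mathlib

section

set_option autoImplicit false

open Set Metric Filter Topology

namespace Pool.Agent.MP_4998f1_an

/-- Continuity principle: a continuous family of holomorphic functions on a bounded open set,
zero-free on the frontier for every parameter and zero-free everywhere for one parameter,
is zero-free everywhere for all parameters of a compact connected parameter space. -/
theorem zero_free_family {T : Type} [TopologicalSpace T] [CompactSpace T] [PreconnectedSpace T]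
    {U : Set ℂ} (hUb : Bornology.IsBounded U)
    (G : T → ℂ → ℂ) (hc : ContinuousOn (fun p : T × ℂ => G p.1 p.2) (univ ×ˢ closure U))
    (hd : ∀ t, DifferentiableOn ℂ (G t) U)
    (hfr : ∀ t, ∀ s ∈ frontier U, G t s ≠ 0) (t0 : T) (h0 : ∀ s ∈ closure U, G t0 s ≠ 0) :
    ∀ t, ∀ s ∈ closure U, G t s ≠ 0 := by
  have hK : IsCompact (closure U) := hUb.isCompact_closure
  have hKf : IsCompact (frontier U) :=
    hK.of_isClosed_subset isClosed_frontier frontier_subset_closure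
  have hc' : ContinuousOn (fun p : T × ℂ => ‖G p.1 p.2‖) (univ ×ˢ frontier U) :=
    (hc.mono (prod_mono subset_rfl frontier_subset_closure)).norm
  obtain ⟨m, hm0, hm⟩ := (isCompact_univ.prod hKf).exists_forall_le' hc' (a := 0)
    (fun p hp => norm_pos_iff.2 (hfr p.1 p.2 hp.2))
  have hslice : ∀ t, ContinuousOn (G t) (closure U) := by
    intro t
    have h1 : ContinuousOn (fun s : ℂ => ((t, s) : T × ℂ)) (closure U) := by fun_prop
    exact hc.comp h1 (fun s hs => ⟨mem_univ _, hs⟩)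
  have hslice2 : ∀ s ∈ closure U, Continuous (fun t => G t s) := by
    intro s hs
    have h1 : ContinuousOn (fun t : T => ((t, s) : T × ℂ)) univ := by fun_prop
    exact continuousOn_univ.1 (hc.comp h1 (fun t _ => ⟨mem_univ _, hs⟩))
  let E : Set T := {t | ∀ s ∈ closure U, G t s ≠ 0}
  have hE : E = ⋂ s ∈ closure U, {t | m ≤ ‖G t s‖} := by
    ext t
    simp only [E, mem_ofPred_eq, mem_iInter]
    constructor
    · intro ht s hs
      have hdc : DiffContOnCl ℂ (fun s => (G t s)⁻¹) U :=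
        ⟨(hd t).inv (fun s hs => ht s (subset_closure hs)), (hslice t).inv₀ ht⟩
      have := Complex.norm_le_of_forall_mem_frontier_norm_le hUb hdc (C := m⁻¹)
        (fun z hz => by
          rw [norm_inv]
          exact inv_anti₀ hm0 (hm (t, z) ⟨mem_univ _, hz⟩)) hs
      rw [norm_inv] at this
      exact (inv_le_inv₀ (norm_pos_iff.2 (ht s hs)) hm0).1 this
    · intro ht s hs h
      have := ht s hs
      rw [h, norm_zero] at this
      linarith
  have hclosed : IsClosed E := by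
    rw [hE]
    exact isClosed_biInter fun s hs => isClosed_le continuous_const (hslice2 s hs).norm
  have hopen : IsOpen E := by
    rw [isOpen_iff_mem_nhds]
    intro t ht
    have := hK.eventually_forall_of_forall_eventually (x₀ := t)
      (P := fun t s => s ∈ closure U → G t s ≠ 0) (fun y hy => by
        have h1 : ContinuousWithinAt (fun p : T × ℂ => G p.1 p.2) (univ ×ˢ closure U) (t, y) :=
          hc (t, y) ⟨mem_univ _, hy⟩
        have h2 := h1.eventually_ne (ht y hy)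
        rw [eventually_nhdsWithin_iff] at h2
        filter_upwards [h2] with z hz hz2 using hz ⟨mem_univ _, hz2⟩)
    filter_upwards [this] with x hx s hs using hx s hs hs
  have : E = univ := IsClopen.eq_univ ⟨hclosed, hopen⟩ ⟨t0, h0⟩
  intro t
  have ht : t ∈ E := this ▸ mem_univ t
  exact ht

end Pool.Agent.MP_4998f1_an

end

section

set_option autoImplicit false

open Set Metric Filter Topology

namespace Pool.Agent.MP_4998f1_an

/-- The open annulus `1/2 < |s| < 2`. -/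
def Ann : Set ℂ := {s | 1 / 2 < ‖s‖ ∧ ‖s‖ < 2}

/-- The two boundary circles of the annulus. -/
def Bd (s : ℂ) : Prop := ‖s‖ = 1 / 2 ∨ ‖s‖ = 2

/-- The compact space carrying the uniform algebra:
`(boundary circles × circle × closed disc) ∪ (closed annulus × circle × {0})`. -/
def M : Set (ℂ × ℂ × ℂ) :=
  {p | ‖p.2.1‖ = 1 ∧ ((Bd p.1 ∧ ‖p.2.2‖ ≤ 1) ∨ (1 / 2 ≤ ‖p.1‖ ∧ ‖p.1‖ ≤ 2 ∧ p.2.2 = 0))}

/-- Continuous on `M`, holomorphic in `s` on the slice `z = 0`, holomorphic in `z` over the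
boundary circles. -/
structure Good (F : ℂ × ℂ × ℂ → ℂ) : Prop where
  cont : ContinuousOn F M
  hs : ∀ w : ℂ, ‖w‖ = 1 → DifferentiableOn ℂ (fun s => F (s, w, 0)) Ann
  hz : ∀ s w : ℂ, Bd s → ‖w‖ = 1 → DifferentiableOn ℂ (fun z => F (s, w, z)) (ball 0 1)

lemma isOpen_Ann : IsOpen Ann :=
  (isOpen_lt continuous_const continuous_norm).inter (isOpen_lt continuous_norm continuous_const)

lemma isBounded_Ann : Bornology.IsBounded Ann :=
  (isBounded_ball (x := (0 : ℂ)) (r := 2)).subset (fun s hs => by simpa using hs.2)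

lemma closure_Ann_subset : closure Ann ⊆ {s : ℂ | 1 / 2 ≤ ‖s‖ ∧ ‖s‖ ≤ 2} := by
  apply closure_minimal
  · intro s hs; exact ⟨hs.1.le, hs.2.le⟩
  · exact (isClosed_le continuous_const continuous_norm).inter
      (isClosed_le continuous_norm continuous_const)

lemma frontier_Ann_subset {s : ℂ} (hs : s ∈ frontier Ann) : Bd s := by
  rw [isOpen_Ann.frontier_eq] at hs
  have h1 := closure_Ann_subset hs.1
  have h2 : ¬ (1 / 2 < ‖s‖ ∧ ‖s‖ < 2) := hs.2
  rcases h1 with ⟨h1, h1'⟩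
  by_cases h : ‖s‖ = 2
  · exact Or.inr h
  · left
    by_contra h'
    exact h2 ⟨lt_of_le_of_ne h1 (Ne.symm h'), lt_of_le_of_ne h1' h⟩

lemma mem_Ann_or_Bd {s : ℂ} (h1 : 1 / 2 ≤ ‖s‖) (h2 : ‖s‖ ≤ 2) : s ∈ Ann ∨ Bd s := by
  by_cases h : ‖s‖ = 2
  · exact Or.inr (Or.inr h)
  by_cases h' : ‖s‖ = 1 / 2
  · exact Or.inr (Or.inl h')
  exact Or.inl ⟨lt_of_le_of_ne h1 (Ne.symm h'), lt_of_le_of_ne h2 h⟩

lemma Bd.bounds {s : ℂ} (h : Bd s) : 1 / 2 ≤ ‖s‖ ∧ ‖s‖ ≤ 2 := by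
  rcases h with h | h <;> rw [h] <;> norm_num

lemma memM_s {s w : ℂ} (hw : ‖w‖ = 1) (h1 : 1 / 2 ≤ ‖s‖) (h2 : ‖s‖ ≤ 2) : (s, w, (0 : ℂ)) ∈ M :=
  ⟨hw, Or.inr ⟨h1, h2, rfl⟩⟩

lemma memM_z {s w z : ℂ} (hw : ‖w‖ = 1) (h1 : Bd s) (h2 : ‖z‖ ≤ 1) : (s, w, z) ∈ M :=
  ⟨hw, Or.inl ⟨h1, h2⟩⟩

lemma Good.diff_s {F : ℂ × ℂ × ℂ → ℂ} (hF : Good F) {w : ℂ} (hw : ‖w‖ = 1) :
    DiffContOnCl ℂ (fun s => F (s, w, 0)) Ann := by
  refine ⟨hF.hs w hw, ?_⟩
  have h1 : ContinuousOn (fun s : ℂ => ((s, w, 0) : ℂ × ℂ × ℂ)) (closure Ann) := by fun_prop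
  exact hF.cont.comp h1 (fun s hs => memM_s hw (closure_Ann_subset hs).1 (closure_Ann_subset hs).2)

lemma Good.diff_z {F : ℂ × ℂ × ℂ → ℂ} (hF : Good F) {s w : ℂ} (hs : Bd s) (hw : ‖w‖ = 1) :
    DiffContOnCl ℂ (fun z => F (s, w, z)) (ball 0 1) := by
  refine ⟨hF.hz s w hs hw, ?_⟩
  have h1 : ContinuousOn (fun z : ℂ => ((s, w, z) : ℂ × ℂ × ℂ)) (closure (ball 0 1)) := by
    fun_prop
  refine hF.cont.comp h1 (fun z hz => memM_z hw hs ?_)
  simpa using closure_ball_subset_closedBall hz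

/-- Maximum principle on `M`. -/
lemma Good.norm_le {F : ℂ × ℂ × ℂ → ℂ} (hF : Good F) {C : ℝ}
    (hC : ∀ s w z : ℂ, Bd s → ‖w‖ = 1 → ‖z‖ = 1 → ‖F (s, w, z)‖ ≤ C) :
    ∀ p ∈ M, ‖F p‖ ≤ C := by
  have h1 : ∀ s w z : ℂ, Bd s → ‖w‖ = 1 → ‖z‖ ≤ 1 → ‖F (s, w, z)‖ ≤ C := by
    intro s w z hs hw hz
    refine Complex.norm_le_of_forall_mem_frontier_norm_le isBounded_ball (hF.diff_z hs hw)
      (fun y hy => hC s w y hs hw ?_) (z := z) ?_
    · rw [frontier_ball _ one_ne_zero] at hy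
      simpa using hy
    · rw [closure_ball _ one_ne_zero]
      simpa using hz
  rintro ⟨s, w, z⟩ ⟨hw, h | ⟨ha, hb, hz⟩⟩
  · exact h1 s w z h.1 hw h.2
  · dsimp only at hw ha hb hz
    subst hz
    rcases mem_Ann_or_Bd ha hb with h | h
    · exact Complex.norm_le_of_forall_mem_frontier_norm_le isBounded_Ann (hF.diff_s hw)
        (fun y hy => h1 y w 0 (frontier_Ann_subset hy) hw (by simp)) (subset_closure h)
    · exact h1 s w 0 h hw (by simp)

lemma Good.const (c : ℂ) : Good (fun _ => c) :=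
  ⟨continuousOn_const, fun _ _ => differentiableOn_const _, fun _ _ _ _ => differentiableOn_const _⟩

lemma Good.add {F G : ℂ × ℂ × ℂ → ℂ} (hF : Good F) (hG : Good G) : Good (fun p => F p + G p) :=
  ⟨hF.cont.add hG.cont, fun w hw => (hF.hs w hw).add (hG.hs w hw),
    fun s w hs hw => (hF.hz s w hs hw).add (hG.hz s w hs hw)⟩

lemma Good.sub {F G : ℂ × ℂ × ℂ → ℂ} (hF : Good F) (hG : Good G) : Good (fun p => F p - G p) :=
  ⟨hF.cont.sub hG.cont, fun w hw => (hF.hs w hw).sub (hG.hs w hw),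
    fun s w hs hw => (hF.hz s w hs hw).sub (hG.hz s w hs hw)⟩

lemma Good.mul {F G : ℂ × ℂ × ℂ → ℂ} (hF : Good F) (hG : Good G) : Good (fun p => F p * G p) :=
  ⟨hF.cont.mul hG.cont, fun w hw => (hF.hs w hw).mul (hG.hs w hw),
    fun s w hs hw => (hF.hz s w hs hw).mul (hG.hz s w hs hw)⟩

lemma Good.inv {F : ℂ × ℂ × ℂ → ℂ} (hF : Good F) (h0 : ∀ p ∈ M, F p ≠ 0) :
    Good (fun p => (F p)⁻¹) :=
  ⟨hF.cont.inv₀ h0,
    fun w hw => (hF.hs w hw).inv (fun _ hs => h0 _ (memM_s hw hs.1.le hs.2.le)),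
    fun s w hs hw => (hF.hz s w hs hw).inv
      (fun z hz => h0 _ (memM_z hw hs (by simpa using (mem_ball_zero_iff.1 hz).le)))⟩

lemma good_a : Good (fun p => p.1 * p.2.1) :=
  ⟨by fun_prop, fun _ _ => by fun_prop, fun _ _ _ _ => by fun_prop⟩

lemma good_Z : Good (fun p => p.2.2) :=
  ⟨by fun_prop, fun _ _ => by fun_prop, fun _ _ _ _ => by fun_prop⟩

/-- The homeomorphism `(s, w, z) ↦ (s, conj w, β z)`. -/
def Rot (β : ℂ) (p : ℂ × ℂ × ℂ) : ℂ × ℂ × ℂ := (p.1, (starRingEnd ℂ) p.2.1, β * p.2.2)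

lemma Rot_mem {β : ℂ} (hβ : ‖β‖ = 1) {p : ℂ × ℂ × ℂ} (hp : p ∈ M) : Rot β p ∈ M := by
  rcases hp with ⟨hw, h | ⟨ha, hb, hz⟩⟩
  · exact ⟨by simpa [Rot] using hw, Or.inl ⟨h.1, by simpa [Rot, hβ] using h.2⟩⟩
  · exact ⟨by simpa [Rot] using hw, Or.inr ⟨ha, hb, by simp [Rot, hz]⟩⟩

lemma Good.rot {F : ℂ × ℂ × ℂ → ℂ} (hF : Good F) {β : ℂ} (hβ : ‖β‖ = 1) :
    Good (fun p => F (Rot β p)) := by
  refine ⟨?_, ?_, ?_⟩
  · have h1 : ContinuousOn (Rot β) M := by
      unfold Rot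
      have := Complex.continuous_conj
      fun_prop
    exact hF.cont.comp h1 (fun p hp => Rot_mem hβ hp)
  · intro w hw
    simpa [Rot] using hF.hs ((starRingEnd ℂ) w) (by simpa using hw)
  · intro s w hs hw
    have h1 := hF.hz s ((starRingEnd ℂ) w) hs (by simpa using hw)
    have h2 : DifferentiableOn ℂ (fun z : ℂ => β * z) (ball 0 1) := by fun_prop
    exact h1.comp h2 (fun z hz => by simpa [hβ] using hz)

/-- Uniform limits on `M` of good functions are good. -/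
lemma Good.of_tendstoUniformlyOn {F : ℕ → ℂ × ℂ × ℂ → ℂ} {G : ℂ × ℂ × ℂ → ℂ}
    (hF : ∀ n, Good (F n)) (h : TendstoUniformlyOn F G atTop M) : Good G := by
  refine ⟨h.continuousOn (Frequently.of_forall fun n => (hF n).cont), ?_, ?_⟩
  · intro w hw
    have h1 : TendstoUniformlyOn (fun n s => F n (s, w, 0)) (fun s => G (s, w, 0)) atTop Ann :=
      (h.comp (fun s : ℂ => ((s, w, 0) : ℂ × ℂ × ℂ))).mono
        (fun s hs => memM_s hw hs.1.le hs.2.le)
    exact h1.tendstoLocallyUniformlyOn.differentiableOn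
      (Eventually.of_forall fun n => (hF n).hs w hw) isOpen_Ann
  · intro s w hs hw
    have h1 : TendstoUniformlyOn (fun n z => F n (s, w, z)) (fun z => G (s, w, z)) atTop
        (ball 0 1) :=
      (h.comp (fun z : ℂ => ((s, w, z) : ℂ × ℂ × ℂ))).mono
        (fun z hz => memM_z hw hs (by simpa using (mem_ball_zero_iff.1 hz).le))
    exact h1.tendstoLocallyUniformlyOn.differentiableOn
      (Eventually.of_forall fun n => (hF n).hz s w hs hw) isOpen_ball

lemma near_one_bounds {s : ℂ} (h : ‖s - 1‖ ≤ 1 / 4) : 3 / 4 ≤ ‖s‖ ∧ ‖s‖ ≤ 5 / 4 := by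
  have h1 : ‖(1 : ℂ)‖ ≤ ‖s‖ + ‖s - 1‖ := by
    calc ‖(1 : ℂ)‖ = ‖s - (s - 1)‖ := by ring_nf
      _ ≤ ‖s‖ + ‖s - 1‖ := norm_sub_le _ _
  have h2 : ‖s‖ ≤ ‖s - 1‖ + ‖(1 : ℂ)‖ := by
    calc ‖s‖ = ‖(s - 1) + 1‖ := by ring_nf
      _ ≤ ‖s - 1‖ + ‖(1 : ℂ)‖ := norm_add_le _ _
  rw [norm_one] at h1 h2
  constructor <;> linarith

/-- A good function without zeros on the small set has no zeros on `M`. -/
lemma Good.ne_zero {F : ℂ × ℂ × ℂ → ℂ} (hF : Good F)
    (hbd : ∀ s w z : ℂ, Bd s → ‖w‖ = 1 → ‖z‖ ≤ 1 → F (s, w, z) ≠ 0)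
    (hone : ∀ s : ℂ, 1 / 2 ≤ ‖s‖ → ‖s‖ ≤ 2 → 1 / 4 ≤ ‖s - 1‖ → F (s, 1, 0) ≠ 0)
    (hneg : ∀ s : ℂ, ‖s - 1‖ ≤ 1 / 4 → F (s, -1, 0) ≠ 0)
    (htube : ∀ s w : ℂ, ‖w‖ = 1 → ‖s - 1‖ = 1 / 4 → F (s, w, 0) ≠ 0) :
    ∀ p ∈ M, F p ≠ 0 := by
  have : CompactSpace (sphere (0 : ℂ) 1) := isCompact_iff_compactSpace.1 (isCompact_sphere _ _)
  have : ConnectedSpace (sphere (0 : ℂ) 1) :=
    isConnected_iff_connectedSpace.1 (isConnected_sphere (by simp) _ zero_le_one)
  have hn : ∀ t : sphere (0 : ℂ) 1, ‖(t : ℂ)‖ = 1 := fun t => by simp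
  have hcont : ∀ U : Set ℂ, (∀ s ∈ U, 1 / 2 ≤ ‖s‖ ∧ ‖s‖ ≤ 2) →
      ContinuousOn (fun p : sphere (0 : ℂ) 1 × ℂ => F (p.2, (p.1 : ℂ), 0)) (univ ×ˢ U) := by
    intro U hU
    have h1 : ContinuousOn
        (fun p : sphere (0 : ℂ) 1 × ℂ => ((p.2, (p.1 : ℂ), 0) : ℂ × ℂ × ℂ)) (univ ×ˢ U) := by
      fun_prop
    exact hF.cont.comp h1 (fun p hp => memM_s (hn p.1) (hU _ hp.2).1 (hU _ hp.2).2)
  have hcl : closure (ball (1 : ℂ) (1 / 4)) = closedBall 1 (1 / 4) :=
    closure_ball _ (by norm_num)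
  -- first step: the solid tube
  have step1 := zero_free_family (T := sphere (0 : ℂ) 1) (U := ball (1 : ℂ) (1 / 4))
    isBounded_ball (fun t s => F (s, (t : ℂ), 0))
    (hcont _ (fun s hs => by
      rw [hcl, mem_closedBall, dist_eq_norm] at hs
      have := near_one_bounds hs
      constructor <;> linarith [this.1, this.2]))
    (fun t => (hF.hs t (hn t)).mono (fun s hs => by
      rw [mem_ball, dist_eq_norm] at hs
      have := near_one_bounds hs.le
      constructor <;> linarith [this.1, this.2]))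
    (fun t s hs => by
      rw [frontier_ball _ (by norm_num), mem_sphere, dist_eq_norm] at hs
      exact htube s t (hn t) hs)
    ⟨-1, by simp⟩
    (fun s hs => by
      rw [hcl, mem_closedBall, dist_eq_norm] at hs
      exact hneg s hs)
  -- second step: the whole annulus
  have step2 := zero_free_family (T := sphere (0 : ℂ) 1) (U := Ann)
    isBounded_Ann (fun t s => F (s, (t : ℂ), 0))
    (hcont _ (fun s hs => closure_Ann_subset hs))
    (fun t => hF.hs t (hn t))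
    (fun t s hs => hbd s t 0 (frontier_Ann_subset hs) (hn t) (by simp))
    ⟨1, by simp⟩
    (fun s hs => by
      by_cases h : 1 / 4 ≤ ‖s - 1‖
      · exact hone s (closure_Ann_subset hs).1 (closure_Ann_subset hs).2 h
      · refine step1 ⟨1, by simp⟩ s ?_
        rw [hcl, mem_closedBall, dist_eq_norm]
        exact (not_le.1 h).le)
  rintro ⟨s, w, z⟩ ⟨hw, h | ⟨ha, hb, hz⟩⟩
  · exact hbd s w z h.1 hw h.2
  · dsimp only at hw ha hb hz
    subst hz
    rcases mem_Ann_or_Bd ha hb with h | h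
    · exact step2 ⟨w, by simpa using hw⟩ s (subset_closure h)
    · exact hbd s w 0 h hw (by simp)

/-- The distinguished boundary is compact. -/
lemma isCompact_bdry :
    IsCompact {p : ℂ × ℂ × ℂ | Bd p.1 ∧ ‖p.2.1‖ = 1 ∧ ‖p.2.2‖ = 1} := by
  have h : {p : ℂ × ℂ × ℂ | Bd p.1 ∧ ‖p.2.1‖ = 1 ∧ ‖p.2.2‖ = 1} =
      (sphere (0 : ℂ) (1 / 2) ∪ sphere (0 : ℂ) 2) ×ˢ (sphere (0 : ℂ) 1 ×ˢ sphere (0 : ℂ) 1) := by
    ext p
    simp [Bd, or_and_right]
  rw [h]
  exact ((isCompact_sphere _ _).union (isCompact_sphere _ _)).prod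
    ((isCompact_sphere _ _).prod (isCompact_sphere _ _))

lemma Good.exists_max {F : ℂ × ℂ × ℂ → ℂ} (hF : Good F) :
    ∃ s w z : ℂ, Bd s ∧ ‖w‖ = 1 ∧ ‖z‖ = 1 ∧ ∀ p ∈ M, ‖F p‖ ≤ ‖F (s, w, z)‖ := by
  obtain ⟨q, hq, hmax⟩ := isCompact_bdry.exists_isMaxOn (f := fun p => ‖F p‖)
    ⟨(2, 1, 1), by simp [Bd]⟩
    ((hF.cont.mono (fun p hp => memM_z hp.2.1 hp.1 hp.2.2.le)).norm)
  refine ⟨q.1, q.2.1, q.2.2, hq.1, hq.2.1, hq.2.2, hF.norm_le ?_⟩
  intro s w z hs hw hz
  exact hmax (a := (s, w, z)) ⟨hs, hw, hz⟩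

end Pool.Agent.MP_4998f1_an

end

section

set_option autoImplicit false

open Set Metric Filter Topology
open scoped BoundedContinuousFunction

namespace Pool.Agent.MP_4998f1_an

/-- Labels of the four invariant pieces of the set `K` on which the operators act. -/
inductive Lab
  | inner
  | outer
  | fixd
  | tube
  deriving DecidableEq

/-- The four pieces. -/
def Cond : Lab → ℂ → ℂ → ℂ → Prop
  | .inner => fun s w z => ‖s‖ = 1 / 2 ∧ ‖w‖ = 1 ∧ ‖z‖ ≤ 1
  | .outer => fun s w z => ‖s‖ = 2 ∧ ‖w‖ = 1 ∧ ‖z‖ ≤ 1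
  | .fixd => fun s w z => z = 0 ∧
      ((w = 1 ∧ 1 / 2 ≤ ‖s‖ ∧ ‖s‖ ≤ 2 ∧ 1 / 4 ≤ ‖s - 1‖) ∨ (w = -1 ∧ ‖s - 1‖ ≤ 1 / 4))
  | .tube => fun s w z => z = 0 ∧ ‖w‖ = 1 ∧ ‖s - 1‖ = 1 / 4

/-- Points of the disjoint union of the four pieces. -/
@[ext] structure Pt where
  lab : Lab
  s : ℂ
  w : ℂ
  z : ℂ
  h : Cond lab s w z

instance : TopologicalSpace Pt := ⊥
instance : DiscreteTopology Pt := ⟨rfl⟩
instance : Nonempty Pt := ⟨⟨.outer, 2, 1, 1, by simp [Cond]⟩⟩

/-- The point of `M` under a point of `K`. -/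
def Pt.co (k : Pt) : ℂ × ℂ × ℂ := (k.s, k.w, k.z)

lemma Pt.co_mem (k : Pt) : k.co ∈ M := by
  rcases k with ⟨l, s, w, z, h⟩
  cases l
  · exact memM_z h.2.1 (Or.inl h.1) h.2.2
  · exact memM_z h.2.1 (Or.inr h.1) h.2.2
  · rcases h with ⟨rfl, ⟨rfl, h1, h2, -⟩ | ⟨rfl, h1⟩⟩
    · exact memM_s (by simp) h1 h2
    · have := near_one_bounds h1
      exact memM_s (by simp) (by linarith [this.1]) (by linarith [this.2])
  · rcases h with ⟨rfl, hw, h1⟩
    have := near_one_bounds h1.le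
    exact memM_s hw (by linarith [this.1]) (by linarith [this.2])

lemma Pt.norm_w (k : Pt) : ‖k.w‖ = 1 := k.co_mem.1

lemma Pt.norm_s (k : Pt) : 1 / 2 ≤ ‖k.s‖ ∧ ‖k.s‖ ≤ 2 := by
  rcases k.co_mem.2 with h | h
  · exact h.1.bounds
  · exact ⟨h.1, h.2.1⟩

lemma Pt.norm_z (k : Pt) : ‖k.z‖ ≤ 1 := by
  rcases k.co_mem.2 with h | h
  · exact h.2
  · have : k.z = 0 := h.2.2
    simp [this]

lemma exists_pt {s w z : ℂ} (hs : Bd s) (hw : ‖w‖ = 1) (hz : ‖z‖ ≤ 1) :
    ∃ k : Pt, k.co = (s, w, z) := by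
  rcases hs with hs | hs
  · exact ⟨⟨.inner, s, w, z, ⟨hs, hw, hz⟩⟩, rfl⟩
  · exact ⟨⟨.outer, s, w, z, ⟨hs, hw, hz⟩⟩, rfl⟩

lemma Cond.rot {β : ℂ} (hβ : ‖β‖ = 1) {l : Lab} {s w z : ℂ} (h : Cond l s w z) :
    Cond l s ((starRingEnd ℂ) w) (β * z) := by
  cases l
  · exact ⟨h.1, by simpa using h.2.1, by simpa [hβ] using h.2.2⟩
  · exact ⟨h.1, by simpa using h.2.1, by simpa [hβ] using h.2.2⟩
  · rcases h with ⟨rfl, ⟨rfl, h1⟩ | ⟨rfl, h1⟩⟩
    · exact ⟨by simp, Or.inl ⟨by simp, h1⟩⟩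
    · exact ⟨by simp, Or.inr ⟨by simp, h1⟩⟩
  · rcases h with ⟨rfl, hw, h1⟩
    exact ⟨by simp, by simpa using hw, h1⟩

/-- The rotation angle: `exp i`, not a root of unity. -/
noncomputable def alpha : ℂ := Complex.exp Complex.I

lemma norm_alpha : ‖alpha‖ = 1 := by
  have := Complex.norm_exp_ofReal_mul_I 1
  simpa [alpha] using this

lemma norm_alpha_inv : ‖alpha⁻¹‖ = 1 := by simp [norm_alpha]

lemma alpha_ne_zero : alpha ≠ 0 := Complex.exp_ne_zero _

lemma alpha_pow_ne_one {n : ℕ} (hn : 0 < n) : alpha ^ n ≠ 1 := by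
  intro h
  rw [alpha, ← Complex.exp_nat_mul, Complex.exp_eq_one_iff] at h
  obtain ⟨m, hm⟩ := h
  have h1 : (n : ℂ) = m * (2 * Real.pi) := by
    have := mul_right_cancel₀ Complex.I_ne_zero (hm.trans (by ring : _ = (m * (2 * Real.pi)) * Complex.I))
    exact this
  have h2 : (n : ℝ) = m * (2 * Real.pi) := by exact_mod_cast h1
  have hm0 : m ≠ 0 := by
    rintro rfl
    simp at h2
    omega
  apply irrational_pi
  refine ⟨(n : ℚ) / (2 * m), ?_⟩
  have : (m : ℝ) ≠ 0 := by exact_mod_cast hm0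
  push_cast
  rw [h2]
  field_simp

/-- The map `φ` on `K`. -/
noncomputable def phi (k : Pt) : Pt :=
  ⟨k.lab, k.s, (starRingEnd ℂ) k.w, alpha * k.z, k.h.rot norm_alpha⟩

/-- The inverse of `φ`. -/
noncomputable def psi (k : Pt) : Pt :=
  ⟨k.lab, k.s, (starRingEnd ℂ) k.w, alpha⁻¹ * k.z, k.h.rot norm_alpha_inv⟩

@[simp] lemma phi_psi (k : Pt) : phi (psi k) = k := by
  ext <;> simp [phi, psi, alpha_ne_zero]

@[simp] lemma psi_phi (k : Pt) : psi (phi k) = k := by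
  ext <;> simp [phi, psi, alpha_ne_zero]

lemma phi_co (k : Pt) : (phi k).co = Rot alpha k.co := rfl
lemma psi_co (k : Pt) : (psi k).co = Rot alpha⁻¹ k.co := rfl

/-- The Banach space (and algebra) of bounded functions on `K`. -/
abbrev Y := Pt →ᵇ ℂ

/-- Composition on the algebra. -/
noncomputable def compY (f : Pt → Pt) (g : Y) : Y :=
  g.compContinuous ⟨f, continuous_of_discreteTopology⟩

@[simp] lemma compY_apply (f : Pt → Pt) (g : Y) (k : Pt) : compY f g k = g (f k) := rfl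

/-- The same space, regarded only as a Banach space. -/
def X : Type := Y

noncomputable instance : NormedAddCommGroup X := inferInstanceAs (NormedAddCommGroup Y)
noncomputable instance : NormedSpace ℂ X := inferInstanceAs (NormedSpace ℂ Y)
instance : CompleteSpace X := inferInstanceAs (CompleteSpace Y)

/-- The identity map. -/
def toX (g : Y) : X := g
/-- The identity map. -/
def ofX (g : X) : Y := g

@[simp] lemma ofX_toX (g : Y) : ofX (toX g) = g := rfl
@[simp] lemma toX_ofX (g : X) : toX (ofX g) = g := rfl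
@[simp] lemma ofX_add (g h : X) : ofX (g + h) = ofX g + ofX h := rfl
@[simp] lemma ofX_sub (g h : X) : ofX (g - h) = ofX g - ofX h := rfl
@[simp] lemma ofX_smul (c : ℂ) (h : X) : ofX (c • h) = c • ofX h := rfl
@[simp] lemma ofX_zero : ofX 0 = 0 := rfl
lemma norm_ofX (g : X) : ‖ofX g‖ = ‖g‖ := rfl

lemma X_ext {g h : X} (H : ∀ k, ofX g k = ofX h k) : g = h :=
  BoundedContinuousFunction.ext (f := ofX g) (g := ofX h) H

lemma op_ext {S T : X →L[ℂ] X} (H : ∀ g k, ofX (S g) k = ofX (T g) k) : S = T :=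
  ContinuousLinearMap.ext fun g => X_ext (H g)

lemma norm_X_le {g : X} {C : ℝ} (hC : 0 ≤ C) (H : ∀ k, ‖ofX g k‖ ≤ C) : ‖g‖ ≤ C :=
  (BoundedContinuousFunction.norm_le (f := ofX g) hC).2 H

lemma norm_ev_le (g : X) (k : Pt) : ‖ofX g k‖ ≤ ‖g‖ := (ofX g).norm_coe_le_norm k

/-- Composition operators. -/
noncomputable def comp (f : Pt → Pt) : X →L[ℂ] X :=
  LinearMap.mkContinuous
    { toFun := fun g => toX (compY f (ofX g))
      map_add' := fun g h => X_ext fun k => by simp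
      map_smul' := fun c g => X_ext fun k => by simp } 1
    (fun g => norm_X_le (by positivity) fun k => by
      rw [one_mul]; exact norm_ev_le g _)

@[simp] lemma comp_apply (f : Pt → Pt) (g : X) (k : Pt) : ofX (comp f g) k = ofX g (f k) := rfl

lemma norm_comp_le (f : Pt → Pt) : ‖comp f‖ ≤ 1 :=
  LinearMap.mkContinuous_norm_le _ zero_le_one _

/-- Multiplication operators. -/
noncomputable def mulC (f : Y) : X →L[ℂ] X :=
  LinearMap.mkContinuous
    { toFun := fun g => toX (f * ofX g)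
      map_add' := fun g h => X_ext fun k => by simp [mul_add]
      map_smul' := fun c g => X_ext fun k => by simp } ‖f‖
    (fun g => norm_mul_le f (ofX g))

@[simp] lemma mulC_apply (f : Y) (g : X) (k : Pt) : ofX (mulC f g) k = f k * ofX g k := rfl

/-- Multiplication operators, as an algebra homomorphism. -/
noncomputable def mulOp : Y →ₐ[ℂ] (X →L[ℂ] X) where
  toFun f := mulC f
  map_one' := op_ext fun g k => by simp
  map_mul' f g := op_ext fun h k => by simp [mul_assoc]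
  map_zero' := op_ext fun h k => by simp
  map_add' f g := op_ext fun h k => by simp [add_mul]
  commutes' c := op_ext fun h k => by simp [Algebra.algebraMap_eq_smul_one]

@[simp] lemma mulOp_apply (f : Y) (g : X) (k : Pt) : ofX (mulOp f g) k = f k * ofX g k := rfl

lemma norm_mulOp (f : Y) : ‖mulOp f‖ = ‖f‖ := by
  apply le_antisymm
  · exact ContinuousLinearMap.opNorm_le_bound _ (norm_nonneg _) (fun g => norm_mul_le f (ofX g))
  · have h := (mulOp f).le_opNorm (toX 1)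
    have h1 : ‖toX 1‖ = 1 := norm_one (α := Y)
    have h2 : mulOp f (toX 1) = toX f := X_ext fun k => by simp
    rw [h1, h2, mul_one] at h
    exact h

lemma isometry_mulOp : Isometry mulOp :=
  AddMonoidHomClass.isometry_of_norm mulOp norm_mulOp

/-- The shift-type operator. -/
noncomputable def Uop : (X →L[ℂ] X)ˣ where
  val := comp phi
  inv := comp psi
  val_inv := op_ext fun g k => by simp
  inv_val := op_ext fun g k => by simp

lemma U_conj (f : Y) : Uop.val * mulOp f * Uop.inv = mulOp (compY phi f) :=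
  op_ext fun g k => by simp [Uop]

lemma U_conj' (f : Y) : Uop.inv * mulOp f * Uop.val = mulOp (compY psi f) :=
  op_ext fun g k => by simp [Uop]

/-- The function algebra, as an algebra of bounded functions on `K`. -/
def B : Subalgebra ℂ Y where
  carrier := {f | ∃ F, Good F ∧ ∀ k, f k = F k.co}
  mul_mem' := by
    rintro f g ⟨F, hF, hf⟩ ⟨G, hG, hg⟩
    exact ⟨_, hF.mul hG, fun k => by simp [hf, hg]⟩
  add_mem' := by
    rintro f g ⟨F, hF, hf⟩ ⟨G, hG, hg⟩
    exact ⟨_, hF.add hG, fun k => by simp [hf, hg]⟩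
  algebraMap_mem' c := ⟨_, Good.const c, fun k => by simp⟩

lemma mem_B {f : Y} : f ∈ B ↔ ∃ F, Good F ∧ ∀ k, f k = F k.co := Iff.rfl

lemma Good.norm_le_norm {F : ℂ × ℂ × ℂ → ℂ} (hF : Good F) {f : Y} (hf : ∀ k, f k = F k.co) :
    ∀ p ∈ M, ‖F p‖ ≤ ‖f‖ := by
  apply hF.norm_le
  intro s w z hs hw hz
  obtain ⟨k, hk⟩ := exists_pt hs hw hz.le
  rw [← hk, ← hf]
  exact f.norm_coe_le_norm k

lemma isClosed_B : IsClosed (B : Set Y) := by
  apply IsSeqClosed.isClosed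
  intro x f hx hlim
  choose F hF hFx using hx
  have hcau : UniformCauchySeqOn F atTop M := by
    rw [Metric.uniformCauchySeqOn_iff]
    intro ε hε
    obtain ⟨N, hN⟩ := Metric.cauchySeq_iff.1 hlim.cauchySeq ε hε
    refine ⟨N, fun m hm n hn p hp => lt_of_le_of_lt ?_ (hN m hm n hn)⟩
    rw [dist_eq_norm, dist_eq_norm]
    exact ((hF m).sub (hF n)).norm_le_norm (f := x m - x n) (fun k => by simp [hFx]) p hp
  have hpt : ∀ p ∈ M, Tendsto (fun n => F n p) atTop (𝓝 (limUnder atTop fun n => F n p)) :=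
    fun p hp => (hcau.cauchySeq hp).tendsto_limUnder
  refine ⟨fun p => limUnder atTop fun n => F n p,
    Good.of_tendstoUniformlyOn hF (hcau.tendstoUniformlyOn_of_tendsto hpt), fun k => ?_⟩
  have h1 : Tendsto (fun n => x n k) atTop (𝓝 (f k)) :=
    ((continuous_eval_const (F := Y) k).tendsto f).comp hlim
  have h2 := hpt k.co k.co_mem
  simp only [← hFx] at h2
  have h3 := tendsto_nhds_unique h1 h2
  simpa only [hFx] using h3

lemma comp_phi_mem {f : Y} (hf : f ∈ B) : compY phi f ∈ B := by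
  obtain ⟨F, hF, h⟩ := hf
  exact ⟨_, hF.rot norm_alpha, fun k => by simp [h, phi_co]⟩

lemma comp_psi_mem {f : Y} (hf : f ∈ B) : compY psi f ∈ B := by
  obtain ⟨F, hF, h⟩ := hf
  exact ⟨_, hF.rot norm_alpha_inv, fun k => by simp [h, psi_co]⟩

lemma inv_mem_B {f g : Y} (hf : f ∈ B) (hfg : f * g = 1) : g ∈ B := by
  obtain ⟨F, hF, h⟩ := hf
  have h1 : ∀ k, f k * g k = 1 := fun k => by
    have := congrArg (fun u : Y => u k) hfg
    simpa using this
  have h0 : ∀ k : Pt, F k.co ≠ 0 := fun k hk => by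
    have := h1 k
    rw [h k, hk, zero_mul] at this
    exact zero_ne_one this
  have hM : ∀ p ∈ M, F p ≠ 0 := by
    apply hF.ne_zero
    · intro s w z hs hw hz
      obtain ⟨k, hk⟩ := exists_pt hs hw hz
      exact hk ▸ h0 k
    · intro s h1 h2 h3
      exact h0 ⟨.fixd, s, 1, 0, ⟨rfl, Or.inl ⟨rfl, h1, h2, h3⟩⟩⟩
    · intro s h1
      exact h0 ⟨.fixd, s, -1, 0, ⟨rfl, Or.inr ⟨rfl, h1⟩⟩⟩
    · intro s w hw h1
      exact h0 ⟨.tube, s, w, 0, ⟨rfl, hw, h1⟩⟩
  refine ⟨_, hF.inv hM, fun k => ?_⟩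
  rw [← h k]
  exact (eq_inv_of_mul_eq_one_right (h1 k))

lemma exists_peak {f : Y} (hf : f ∈ B) : ∃ k : Pt, ‖k.z‖ = 1 ∧ ‖f‖ ≤ ‖f k‖ := by
  obtain ⟨F, hF, h⟩ := hf
  obtain ⟨s, w, z, hs, hw, hz, hmax⟩ := hF.exists_max
  obtain ⟨k, hk⟩ := exists_pt hs hw hz.le
  refine ⟨k, ?_, ?_⟩
  · have : k.z = z := congrArg (fun p => p.2.2) hk
    rw [this, hz]
  · rw [h k, hk]
    refine (BoundedContinuousFunction.norm_le (norm_nonneg _)).2 fun j => ?_
    rw [h j]
    exact hmax _ j.co_mem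

/-- A bounded function on `K` from a bound. -/
noncomputable def mkY (f : Pt → ℂ) (C : ℝ) (h : ∀ k, ‖f k‖ ≤ C) : Y :=
  BoundedContinuousFunction.ofNormedAddCommGroupDiscrete f C h

@[simp] lemma mkY_apply (f : Pt → ℂ) (C : ℝ) (h : ∀ k, ‖f k‖ ≤ C) (k : Pt) :
    mkY f C h k = f k := rfl

/-- The weight `a = s w`. -/
noncomputable def aY : Y := mkY (fun k => k.s * k.w) 2 (fun k => by
  rw [norm_mul, k.norm_w, mul_one]; exact k.norm_s.2)

/-- The coordinate `z`. -/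
noncomputable def zY : Y := mkY (fun k => k.z) 1 (fun k => k.norm_z)

@[simp] lemma aY_apply (k : Pt) : aY k = k.s * k.w := rfl
@[simp] lemma zY_apply (k : Pt) : zY k = k.z := rfl

lemma aY_mem : aY ∈ B := ⟨_, good_a, fun _ => rfl⟩
lemma zY_mem : zY ∈ B := ⟨_, good_Z, fun _ => rfl⟩

lemma comp_phi_zY : compY phi zY = alpha • zY := by
  ext k; simp [phi]

/-- The constant `1` is not of the form `b - a · (b ∘ φ)` with `b` in the algebra: the
character at `(1, 1, 0)` is fixed by `φ` and takes the value `1` at `a`. -/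
lemma one_ne_cobound {f : Y} (hf : f ∈ B) : (1 : Y) ≠ f - aY * compY phi f := by
  intro h1
  obtain ⟨F, hF, h⟩ := hf
  have hG : Good (fun p => 1 - (F p - p.1 * p.2.1 * F (Rot alpha p))) :=
    (Good.const 1).sub (hF.sub (good_a.mul (hF.rot norm_alpha)))
  have := hG.norm_le_norm (f := 0) (fun k => by
    have h2 := congrArg (fun u : Y => u k) h1
    simp only [BoundedContinuousFunction.coe_one, Pi.one_apply, BoundedContinuousFunction.coe_sub,
      BoundedContinuousFunction.coe_mul, Pi.sub_apply, Pi.mul_apply, aY_apply, compY_apply, h,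
      phi_co] at h2
    simp only [BoundedContinuousFunction.coe_zero, Pi.zero_apply]
    rw [h2]
    simp [Pt.co]) (1, 1, 0) (memM_s (by simp) (by norm_num) (by norm_num))
  simp [Rot] at this
  linarith

lemma norm_mul_self (f : Y) : ‖f * f‖ = ‖f‖ ^ 2 := by
  apply le_antisymm
  · rw [sq]; exact norm_mul_le f f
  · have h : ‖f‖ ≤ Real.sqrt ‖f * f‖ := by
      refine (BoundedContinuousFunction.norm_le (Real.sqrt_nonneg _)).2 fun k => ?_
      apply Real.le_sqrt_of_sq_le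
      have := (f * f).norm_coe_le_norm k
      simpa [sq] using this
    calc ‖f‖ ^ 2 ≤ (Real.sqrt ‖f * f‖) ^ 2 := by gcongr
      _ = ‖f * f‖ := Real.sq_sqrt (norm_nonneg _)

end Pool.Agent.MP_4998f1_an

end

section

set_option autoImplicit false

open Set Metric Filter Topology
open scoped BoundedContinuousFunction

namespace Pool.Agent.MP_4998f1_an

@[simp] lemma phi_lab (k : Pt) : (phi k).lab = k.lab := rfl
@[simp] lemma psi_lab (k : Pt) : (psi k).lab = k.lab := rfl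
@[simp] lemma phi_s (k : Pt) : (phi k).s = k.s := rfl
@[simp] lemma psi_s (k : Pt) : (psi k).s = k.s := rfl
@[simp] lemma phi_w (k : Pt) : (phi k).w = (starRingEnd ℂ) k.w := rfl
@[simp] lemma psi_w (k : Pt) : (psi k).w = (starRingEnd ℂ) k.w := rfl

lemma phi_fixd {k : Pt} (h : k.lab = .fixd) : phi k = k := by
  rcases k with ⟨l, s, w, z, hk⟩
  dsimp only at h
  subst h
  rcases hk with ⟨rfl, ⟨rfl, h1⟩ | ⟨rfl, h1⟩⟩
  · ext <;> simp [phi]
  · ext <;> simp [phi]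

lemma phi_phi_tube {k : Pt} (h : k.lab = .tube) : phi (phi k) = k := by
  rcases k with ⟨l, s, w, z, hk⟩
  dsimp only at h
  subst h
  rcases hk with ⟨rfl, h1⟩
  ext <;> simp [phi]

lemma w_mul_conj (k : Pt) : k.w * (starRingEnd ℂ) k.w = 1 := by
  rw [Complex.mul_conj, Complex.normSq_eq_norm_sq, k.norm_w]; simp

lemma s_ne_zero (k : Pt) : k.s ≠ 0 := by
  intro h
  have := k.norm_s.1
  rw [h, norm_zero] at this
  norm_num at this

lemma w_ne_zero (k : Pt) : k.w ≠ 0 := by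
  intro h
  have := k.norm_w
  rw [h, norm_zero] at this
  norm_num at this

lemma norm_inner {k : Pt} (h : k.lab = .inner) : ‖k.s‖ = 1 / 2 := by
  rcases k with ⟨l, s, w, z, hk⟩
  dsimp only at h
  subst h
  exact hk.1

lemma norm_outer {k : Pt} (h : k.lab = .outer) : ‖k.s‖ = 2 := by
  rcases k with ⟨l, s, w, z, hk⟩
  dsimp only at h
  subst h
  exact hk.1

lemma norm_fixd {k : Pt} (h : k.lab = .fixd) : 1 / 4 ≤ ‖1 - k.s * k.w‖ := by
  rcases k with ⟨l, s, w, z, hk⟩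
  dsimp only at h
  subst h
  rcases hk with ⟨rfl, ⟨rfl, h1⟩ | ⟨rfl, h1⟩⟩
  · dsimp only
    rw [mul_one, norm_sub_rev]
    exact h1.2.2
  · dsimp only
    have h2 : ‖(2 : ℂ)‖ ≤ ‖1 - s * -1‖ + ‖s - 1‖ := by
      calc ‖(2 : ℂ)‖ = ‖(1 - s * -1) - (s - 1)‖ := by ring_nf
        _ ≤ _ := norm_sub_le _ _
    have h3 : ‖(2 : ℂ)‖ = 2 := by simp
    linarith

lemma norm_tube {k : Pt} (h : k.lab = .tube) : 1 / 4 ≤ ‖1 - k.s ^ 2‖ := by
  rcases k with ⟨l, s, w, z, hk⟩
  dsimp only at h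
  subst h
  rcases hk with ⟨rfl, -, h1⟩
  dsimp only
  have h2 : ‖(2 : ℂ)‖ ≤ ‖s + 1‖ + ‖s - 1‖ := by
    calc ‖(2 : ℂ)‖ = ‖(s + 1) - (s - 1)‖ := by ring_nf
      _ ≤ _ := norm_sub_le _ _
  have h3 : ‖(2 : ℂ)‖ = 2 := by simp
  have h4 : ‖1 - s ^ 2‖ = ‖s - 1‖ * ‖s + 1‖ := by
    rw [← norm_mul, ← norm_neg]; ring_nf
  rw [h4, h1]
  linarith

lemma norm_inv_le_four {x : ℂ} (h : 1 / 4 ≤ ‖x‖) : ‖x⁻¹‖ ≤ 4 := by
  rw [norm_inv]
  have := inv_anti₀ (by norm_num) h
  simpa using this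

lemma ne_zero_of_quarter {x : ℂ} (h : 1 / 4 ≤ ‖x‖) : x ≠ 0 := by
  rintro rfl
  norm_num at h

noncomputable def q0 : Y := mkY (fun k => if k.lab = .inner then 1 else if k.lab = .fixd then
    (1 - k.s * k.w)⁻¹ else if k.lab = .tube then (1 - k.s ^ 2)⁻¹ else 0) 4 (fun k => by
  split_ifs with h1 h2 h3
  · simp
  · exact norm_inv_le_four (norm_fixd h2)
  · exact norm_inv_le_four (norm_tube h3)
  · simp)

noncomputable def q1 : Y := mkY (fun k => if k.lab = .tube then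
    k.s * k.w * (1 - k.s ^ 2)⁻¹ else 0) 8 (fun k => by
  split_ifs with h1
  · rw [norm_mul, norm_mul, k.norm_w, mul_one]
    have h2 := norm_inv_le_four (norm_tube h1)
    have h3 := k.norm_s.2
    calc ‖k.s‖ * ‖(1 - k.s ^ 2)⁻¹‖ ≤ 2 * 4 := by gcongr
      _ = 8 := by norm_num
  · simp)

noncomputable def n1 : Y := mkY (fun k => if k.lab = .inner then k.s * k.w else 0) (1 / 2)
  (fun k => by
    split_ifs with h1
    · rw [norm_mul, k.norm_w, mul_one, norm_inner h1]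
    · simp)

noncomputable def n2 : Y := mkY (fun k => if k.lab = .outer then
    (k.s * (starRingEnd ℂ) k.w)⁻¹ else 0) (1 / 2)
  (fun k => by
    split_ifs with h1
    · rw [norm_inv, norm_mul, Complex.norm_conj, k.norm_w, mul_one, norm_outer h1]
      norm_num
    · simp)

noncomputable def Qop : X →L[ℂ] X := mulOp q0 + mulOp q1 * comp phi - mulOp n2 * comp psi

noncomputable def Nop : X →L[ℂ] X := mulOp n1 * comp phi + mulOp n2 * comp psi

lemma Qop_apply (g : X) (k : Pt) :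
    ofX (Qop g) k = q0 k * ofX g k + q1 k * ofX g (phi k) - n2 k * ofX g (psi k) := by
  simp [Qop]

lemma Nop_apply (g : X) (k : Pt) :
    ofX (Nop g) k = n1 k * ofX g (phi k) + n2 k * ofX g (psi k) := by
  simp [Nop]

lemma V_apply (g : X) (k : Pt) :
    ofX ((1 - mulOp aY * Uop.val) g) k = ofX g k - k.s * k.w * ofX g (phi k) := by
  simp [Uop]

lemma norm_Nop : ‖Nop‖ < 1 := by
  refine lt_of_le_of_lt (ContinuousLinearMap.opNorm_le_bound _ (M := 1 / 2) (by norm_num)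
    (fun g => ?_)) (by norm_num)
  refine norm_X_le (by positivity) fun k => ?_
  rw [Nop_apply]
  have hg := norm_ev_le g
  cases h : k.lab
  · have h1 : n2 k = 0 := by simp [n2, h]
    have h2 : ‖n1 k‖ = 1 / 2 := by
      simp only [n1, mkY_apply, h, if_true]
      rw [norm_mul, k.norm_w, mul_one, norm_inner h]
    rw [h1, zero_mul, add_zero, norm_mul, h2]
    gcongr
    exact hg _
  · have h1 : n1 k = 0 := by simp [n1, h]
    have h2 : ‖n2 k‖ = 1 / 2 := by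
      simp only [n2, mkY_apply, h, if_true]
      rw [norm_inv, norm_mul, Complex.norm_conj, k.norm_w, mul_one, norm_outer h]
      norm_num
    rw [h1, zero_mul, zero_add, norm_mul, h2]
    gcongr
    exact hg _
  · simp [n1, n2, h]
  · simp [n1, n2, h]

lemma left_id : (1 - mulOp aY * Uop.val) * Qop = 1 - Nop := by
  refine op_ext fun g k => ?_
  rw [mul_apply_eq_comp, V_apply, Qop_apply, Qop_apply]
  have : ofX ((1 - Nop) g) k = ofX g k - ofX (Nop g) k := by simp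
  rw [this, Nop_apply]
  have hs := s_ne_zero k
  have hw := w_ne_zero k
  cases h : k.lab
  · simp [q0, q1, n1, n2, h]
  · simp [q0, q1, n1, n2, h]
    field_simp
    ring
  · have h1 := ne_zero_of_quarter (norm_fixd h)
    simp [q0, q1, n1, n2, h, phi_fixd h]
    field_simp
  · have h1 := ne_zero_of_quarter (norm_tube h)
    have h2 := w_mul_conj k
    simp [q0, q1, n1, n2, h, phi_phi_tube h]
    field_simp
    linear_combination (-(k.s ^ 2 * ofX g k)) * h2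

lemma right_id : Qop * (1 - mulOp aY * Uop.val) = 1 - Nop := by
  refine op_ext fun g k => ?_
  rw [mul_apply_eq_comp, Qop_apply, V_apply, V_apply, V_apply]
  have : ofX ((1 - Nop) g) k = ofX g k - ofX (Nop g) k := by simp
  rw [this, Nop_apply]
  have hs := s_ne_zero k
  have hw := w_ne_zero k
  have hw' : (starRingEnd ℂ) k.w ≠ 0 := by simpa using hw
  cases h : k.lab
  · simp [q0, q1, n1, n2, h]
  · simp [q0, q1, n1, n2, h]
    field_simp
    ring
  · have h1 := ne_zero_of_quarter (norm_fixd h)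
    simp [q0, q1, n1, n2, h, phi_fixd h]
    field_simp
  · have h1 := ne_zero_of_quarter (norm_tube h)
    have h2 := w_mul_conj k
    simp [q0, q1, n1, n2, h, phi_phi_tube h]
    field_simp
    linear_combination (-(k.s ^ 2 * ofX g k)) * h2

/-- `1` is in the resolvent set of `aU` on the space of bounded functions on `K`. -/
theorem isUnit_one_sub : IsUnit (1 - mulOp aY * Uop.val) := by
  have hN : IsUnit (1 - Nop) := (Units.oneSub Nop norm_Nop).isUnit
  obtain ⟨u, hu⟩ := hN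
  rw [isUnit_iff_exists_and_exists]
  constructor
  · refine ⟨Qop * u.inv, ?_⟩
    rw [← mul_assoc, left_id, ← hu]
    exact u.val_inv
  · refine ⟨u.inv * Qop, ?_⟩
    rw [mul_assoc, right_id, ← hu]
    exact u.inv_val

end Pool.Agent.MP_4998f1_an

end

section

set_option autoImplicit false

open Set Metric Filter Topology
open scoped BoundedContinuousFunction

namespace Pool.Agent.MP_4998f1_an

/-- The uniform algebra of operators: multiplications by elements of `B`. -/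
noncomputable def Aop : Subalgebra ℂ (X →L[ℂ] X) := B.map mulOp

lemma mem_Aop {a : X →L[ℂ] X} : a ∈ Aop ↔ ∃ f ∈ B, mulOp f = a := Subalgebra.mem_map

lemma mulOp_mem {f : Y} (hf : f ∈ B) : mulOp f ∈ Aop := mem_Aop.2 ⟨f, hf, rfl⟩

lemma isClosed_Aop : IsClosed (Aop : Set (X →L[ℂ] X)) := by
  have : (Aop : Set (X →L[ℂ] X)) = mulOp '' (B : Set Y) := Subalgebra.coe_map _ _
  rw [this]
  exact isometry_mulOp.isClosedEmbedding.isClosedMap _ isClosed_B

lemma Aop_comm : ∀ a ∈ Aop, ∀ b ∈ Aop, a * b = b * a := by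
  intro a ha b hb
  obtain ⟨f, -, rfl⟩ := mem_Aop.1 ha
  obtain ⟨g, -, rfl⟩ := mem_Aop.1 hb
  rw [← map_mul, ← map_mul, mul_comm]

lemma Aop_norm : ∀ a ∈ Aop, ‖a * a‖ = ‖a‖ ^ 2 := by
  intro a ha
  obtain ⟨f, -, rfl⟩ := mem_Aop.1 ha
  rw [← map_mul, norm_mulOp, norm_mulOp, norm_mul_self]

lemma Aop_conj : ∀ a ∈ Aop, Uop.val * a * Uop.inv ∈ Aop := by
  intro a ha
  obtain ⟨f, hf, rfl⟩ := mem_Aop.1 ha
  rw [U_conj]
  exact mulOp_mem (comp_phi_mem hf)

lemma Aop_conj' : ∀ a ∈ Aop, Uop.inv * a * Uop.val ∈ Aop := by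
  intro a ha
  obtain ⟨f, hf, rfl⟩ := mem_Aop.1 ha
  rw [U_conj']
  exact mulOp_mem (comp_psi_mem hf)

lemma Aop_inv : ∀ (a : X →L[ℂ] X) (ha : a ∈ Aop), IsUnit a → IsUnit (⟨a, ha⟩ : Aop) := by
  intro a ha hu
  obtain ⟨f, hf, rfl⟩ := mem_Aop.1 ha
  obtain ⟨u, hu⟩ := hu
  have h1 : f * ofX (u.inv (toX 1)) = 1 := by
    have h2 : (u.val * u.inv) (toX 1) = toX 1 := by rw [u.val_inv]; rfl
    rw [hu] at h2
    exact h2
  have hg := inv_mem_B hf h1
  rw [isUnit_iff_exists]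
  refine ⟨⟨mulOp (ofX (u.inv (toX 1))), mulOp_mem hg⟩, ?_, ?_⟩
  · apply Subtype.ext
    change mulOp f * mulOp (ofX (u.inv (toX 1))) = 1
    rw [← map_mul, h1, map_one]
  · apply Subtype.ext
    change mulOp (ofX (u.inv (toX 1))) * mulOp f = 1
    rw [← map_mul, mul_comm, h1, map_one]

lemma norm_one_le : ‖(1 : X →L[ℂ] X)‖ ≤ 1 := ContinuousLinearMap.norm_id_le

lemma spectrum_U : spectrum ℂ Uop.val ⊆ Metric.sphere (0 : ℂ) 1 := by
  intro μ hμ
  have h1 : ‖μ‖ ≤ 1 := by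
    have := spectrum.norm_le_norm_mul_of_mem hμ
    have h2 : ‖Uop.val‖ ≤ 1 := norm_comp_le phi
    exact this.trans (mul_le_one₀ h2 (norm_nonneg _) norm_one_le)
  have h0 : μ ≠ 0 := by
    rintro rfl
    exact spectrum.zero_notMem ℂ Uop.isUnit hμ
  have h2 : ‖μ⁻¹‖ ≤ 1 := by
    have h3 : μ⁻¹ ∈ spectrum ℂ (↑Uop⁻¹ : X →L[ℂ] X) := spectrum.inv₀_mem_inv hμ
    have := spectrum.norm_le_norm_mul_of_mem h3
    have h2 : ‖(↑Uop⁻¹ : X →L[ℂ] X)‖ ≤ 1 := norm_comp_le psi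
    exact this.trans (mul_le_one₀ h2 (norm_nonneg _) norm_one_le)
  rw [norm_inv, inv_le_one₀ (norm_pos_iff.2 h0)] at h2
  simpa using le_antisymm h1 h2

lemma one_notMem_spectrum : (1 : ℂ) ∉ spectrum ℂ (mulOp aY * Uop.val) := by
  rw [spectrum.notMem_iff, map_one]
  exact isUnit_one_sub

lemma not_solvable : ¬ ∀ c ∈ Aop, ∃! b, b ∈ Aop ∧
    c = (1 : ℂ) • b - mulOp aY * (Uop.val * b * Uop.inv) := by
  intro h
  obtain ⟨b, ⟨hb, h1⟩, -⟩ := h 1 Aop.one_mem
  obtain ⟨f, hf, rfl⟩ := mem_Aop.1 hb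
  rw [U_conj, one_smul, ← map_mul, ← map_sub, ← map_one mulOp] at h1
  exact one_ne_cobound hf (isometry_mulOp.injective h1)

lemma U_pow_conj (n : ℕ) :
    (Uop ^ n).val * mulOp zY * (Uop ^ n).inv = alpha ^ n • mulOp zY := by
  have h1 : Uop.val * mulOp zY = alpha • (mulOp zY * Uop.val) := by
    have h := U_conj zY
    rw [comp_phi_zY, map_smul] at h
    rw [← smul_mul_assoc, ← h, mul_assoc, Uop.inv_val, mul_one]
  have h2 : (Uop ^ n).val * mulOp zY = alpha ^ n • (mulOp zY * (Uop ^ n).val) := by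
    induction n with
    | zero => simp
    | succ n ih =>
      rw [pow_succ, Units.val_mul, mul_assoc, h1, mul_smul_comm, ← mul_assoc, ih,
        smul_mul_assoc, smul_smul, mul_assoc, pow_succ']
  rw [h2, smul_mul_assoc, mul_assoc, (Uop ^ n).val_inv, mul_one]

instance : CompleteSpace Aop := isClosed_Aop.completeSpace_coe

/-- Evaluation of an element of the operator algebra at a point of `K`. -/
noncomputable def evalHom (k : Pt) : Aop →ₐ[ℂ] ℂ where
  toFun a := ofX (a.1 (toX 1)) k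
  map_one' := rfl
  map_mul' a b := by
    obtain ⟨f, -, hf⟩ := mem_Aop.1 a.2
    obtain ⟨g, -, hg⟩ := mem_Aop.1 b.2
    simp [← hf, ← hg]
  map_zero' := rfl
  map_add' a b := by simp
  commutes' c := by simp [Algebra.algebraMap_eq_smul_one]

noncomputable def evalChar (k : Pt) : WeakDual.characterSpace ℂ Aop :=
  WeakDual.CharacterSpace.equivAlgHom.symm (evalHom k)

lemma evalChar_apply (k : Pt) (f : Y) (hf : mulOp f ∈ Aop) :
    evalChar k ⟨mulOp f, hf⟩ = f k := by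
  change ofX (mulOp f (toX 1)) k = f k
  simp

lemma char_norm_le (ψ : WeakDual.characterSpace ℂ Aop) (a : Aop) : ‖ψ a‖ ≤ ‖a.1‖ := by
  have h := AlgHom.norm_apply_le_self_mul_norm_one ψ a
  have h1 : ‖(1 : Aop)‖ ≤ 1 := norm_one_le
  exact h.trans (mul_le_of_le_one_right (norm_nonneg _) h1)

/-- The characters with `|χ(z)| = 1` form a closed boundary. -/
lemma boundary_mem :
    {χ : WeakDual.characterSpace ℂ Aop | ‖χ ⟨mulOp zY, mulOp_mem zY_mem⟩‖ = 1} ∈
      {K : Set (WeakDual.characterSpace ℂ Aop) | IsClosed K ∧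
        ∀ a : Aop, ∃ χ ∈ K, ∀ ψ : WeakDual.characterSpace ℂ Aop, ‖ψ a‖ ≤ ‖χ a‖} := by
  constructor
  · apply isClosed_eq _ continuous_const
    exact ((WeakDual.eval_continuous _).comp continuous_subtype_val).norm
  · rintro ⟨a, ha⟩
    obtain ⟨f, hf, rfl⟩ := mem_Aop.1 ha
    obtain ⟨k, hk, hmax⟩ := exists_peak hf
    refine ⟨evalChar k, ?_, fun ψ => ?_⟩
    · change ‖evalChar k ⟨mulOp zY, mulOp_mem zY_mem⟩‖ = 1
      rw [evalChar_apply]
      exact hk
    · rw [evalChar_apply]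
      refine (char_norm_le ψ _).trans ?_
      rw [norm_mulOp]
      exact hmax

lemma not_periodic (χ : WeakDual.characterSpace ℂ Aop)
    (h1 : ‖χ ⟨mulOp zY, mulOp_mem zY_mem⟩‖ = 1) :
    ¬ ∃ n : ℕ, 0 < n ∧
      ∀ (a : X →L[ℂ] X) (ha : a ∈ Aop) (b : X →L[ℂ] X) (hb : b ∈ Aop),
        b = (Uop ^ n).val * a * (Uop ^ n).inv → χ (⟨b, hb⟩ : Aop) = χ (⟨a, ha⟩ : Aop) := by
  rintro ⟨n, hn, h⟩
  have h2 := h (mulOp zY) (mulOp_mem zY_mem) (alpha ^ n • mulOp zY)
    (Aop.smul_mem (mulOp_mem zY_mem) _) (U_pow_conj n).symm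
  have h3 : χ (⟨alpha ^ n • mulOp zY, Aop.smul_mem (mulOp_mem zY_mem) _⟩ : Aop) =
      alpha ^ n * χ ⟨mulOp zY, mulOp_mem zY_mem⟩ := by
    have h5 : (⟨alpha ^ n • mulOp zY, Aop.smul_mem (mulOp_mem zY_mem) _⟩ : Aop) =
        alpha ^ n • (⟨mulOp zY, mulOp_mem zY_mem⟩ : Aop) := Subtype.ext rfl
    rw [h5, map_smul, smul_eq_mul]
  have h4 : χ ⟨mulOp zY, mulOp_mem zY_mem⟩ ≠ 0 := by
    intro h0
    rw [h0, norm_zero] at h1
    exact zero_ne_one h1
  rw [h3] at h2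
  exact alpha_pow_ne_one hn (mul_left_eq_self₀.1 h2 |>.resolve_right h4)

end Pool.Agent.MP_4998f1_an

end
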