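import Mathlib
import Pool.Agent.Mg.F4998f1.G9124a7

set_option autoImplicit false

open Set Metric Filter Topology
open scoped BoundedContinuousFunction

namespace Pool.Agent.MP_4998f1_an

/-- The automorphism `b ↦ U b U⁻¹` of the algebra, as a bounded operator. -/
noncomputable def conjOp : Aop →L[ℂ] Aop where
  toFun b := ⟨Uop.val * b.1 * Uop.inv, Aop_conj _ b.2⟩
  map_add' b c := Subtype.ext (by simp [mul_add, add_mul])
  map_smul' r b := Subtype.ext (by simp)
  cont := by
    apply Continuous.subtype_mk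
    exact (continuous_const.mul continuous_subtype_val).mul continuous_const

lemma conjOp_val (b : Aop) : (conjOp b).1 = Uop.val * b.1 * Uop.inv := rfl

lemma conjOp_surj : Function.Surjective conjOp := by
  intro c
  refine ⟨⟨Uop.inv * c.1 * Uop.val, Aop_conj' _ c.2⟩, Subtype.ext ?_⟩
  rw [conjOp_val]
  calc Uop.val * (Uop.inv * c.1 * Uop.val) * Uop.inv
      = (Uop.val * Uop.inv) * c.1 * (Uop.val * Uop.inv) := by simp only [mul_assoc]
    _ = c.1 := by rw [Uop.val_inv, one_mul, mul_one]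

lemma conjOp_iter (n : ℕ) (b : Aop) :
    (conjOp^[n] b).1 = (Uop ^ n).val * b.1 * (Uop ^ n).inv := by
  induction n with
  | zero => simp
  | succ n ih =>
    rw [Function.iterate_succ_apply', conjOp_val, ih, pow_succ']
    have h1 : (Uop * Uop ^ n).inv = (Uop ^ n).inv * Uop.inv := rfl
    rw [h1, Units.val_mul]
    simp only [mul_assoc]

/-- The weight as an element of the operator algebra. -/
noncomputable def aA : Aop := ⟨mulOp aY, mulOp_mem aY_mem⟩

lemma isUnit_aA : IsUnit aA := by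
  apply Aop_inv
  have hb : ∀ k : Pt, ‖(k.s * k.w)⁻¹‖ ≤ 2 := by
    intro k
    rw [norm_inv, norm_mul, k.norm_w, mul_one]
    have h := k.norm_s.1
    rw [inv_le_comm₀ (by linarith) (by norm_num)]
    simpa using h
  have h1 : aY * mkY (fun k => (k.s * k.w)⁻¹) 2 hb = 1 := by
    ext k
    simp only [BoundedContinuousFunction.coe_mul, Pi.mul_apply, aY_apply, mkY_apply,
      BoundedContinuousFunction.coe_one, Pi.one_apply]
    exact mul_inv_cancel₀ (mul_ne_zero (s_ne_zero k) (w_ne_zero k))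
  have h2 : IsUnit aY := IsUnit.of_mul_eq_one _ h1
  exact h2.map mulOp

lemma one_mem_spectrum_aT :
    (1 : ℂ) ∈ spectrum ℂ ((ContinuousLinearMap.mul ℂ Aop aA).comp conjOp) := by
  rw [spectrum.mem_iff, map_one]
  intro hu
  obtain ⟨u, hu⟩ := hu
  have h1 : (u.val * u.inv) (1 : Aop) = 1 := by rw [u.val_inv]; rfl
  rw [hu] at h1
  obtain ⟨f, hf, hfe⟩ := mem_Aop.1 (u.inv (1 : Aop)).2
  have h2 : (1 : X →L[ℂ] X) =
      (u.inv (1 : Aop)).1 - mulOp aY * (Uop.val * (u.inv (1 : Aop)).1 * Uop.inv) := by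
    have := congrArg Subtype.val h1
    exact this.symm
  rw [← hfe, U_conj, ← map_mul, ← map_sub, ← map_one mulOp] at h2
  exact one_ne_cobound hf (isometry_mulOp.injective h2)

lemma norm_Uop (x : X) : ‖Uop.val x‖ = ‖x‖ := by
  apply le_antisymm
  · have h : ‖Uop.val‖ ≤ 1 := norm_comp_le phi
    exact (Uop.val.le_opNorm x).trans (mul_le_of_le_one_left (norm_nonneg _) h)
  · have h : ‖Uop.inv‖ ≤ 1 := norm_comp_le psi
    have h2 : Uop.inv (Uop.val x) = x := by
      have : (Uop.inv * Uop.val) x = x := by rw [Uop.inv_val]; rfl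
      exact this
    calc ‖x‖ = ‖Uop.inv (Uop.val x)‖ := by rw [h2]
      _ ≤ ‖Uop.val x‖ :=
        (Uop.inv.le_opNorm _).trans (mul_le_of_le_one_left (norm_nonneg _) h)

end Pool.Agent.MP_4998f1_an
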